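import Mathlib
import Pool.Agent.W237.RK.LDefs
import Pool.Agent.W237.RK.Defs
import Pool.Agent.W237.RK.LGal
import Pool.Agent.W237.RK.Gal
import Pool.Agent.W237.RK.LevFin

set_option autoImplicit false

/-! RK-LT: the local main theorem for number fields. -/

namespace Pool.Agent.W340.RK

open Polynomial IntermediateField
open Pool.Agent.H58P (Qb ht)
open Pool.Agent.W237.RK

variable {p : ℕ} [Fact p.Prime]

/-- the elements mapped into `L` -/
noncomputable def pull (φ : Qb →+* Om p) (L : LF p) : GF :=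
  { carrier := {x | φ x ∈ L}
    mul_mem' := by
      intro x y hx hy
      show φ (x * y) ∈ L
      rw [map_mul]; exact mul_mem hx hy
    add_mem' := by
      intro x y hx hy
      show φ (x + y) ∈ L
      rw [map_add]; exact add_mem hx hy
    algebraMap_mem' := by
      intro q
      show φ (algebraMap ℚ Qb q) ∈ L
      rw [eq_ratCast, map_ratCast]
      exact SubfieldClass.ratCast_mem L q
    inv_mem' := by
      intro x hx
      show φ x⁻¹ ∈ L
      rw [map_inv₀]; exact inv_mem hx }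

lemma mem_pull {φ : Qb →+* Om p} {L : LF p} {x : Qb} : x ∈ pull φ L ↔ φ x ∈ L := Iff.rfl

/-- the local field -/
noncomputable def kk (φ : Qb →+* Om p) (K : GF) : LF p :=
  kur p ⊔ adjoin ℚ_[p] (φ '' (K : Set Qb))

lemma kur_le_kk (φ : Qb →+* Om p) (K : GF) : kur p ≤ kk φ K := le_sup_left

lemma mem_kk (φ : Qb →+* Om p) (K : GF) {x : Qb} (hx : x ∈ K) : φ x ∈ kk φ K :=
  (le_sup_right : adjoin ℚ_[p] (φ '' (K : Set Qb)) ≤ kk φ K) (subset_adjoin _ _ ⟨x, hx, rfl⟩)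

lemma finOver_kk (φ : Qb →+* Om p) (K : GF) (hK : FiniteDimensional ℚ K) :
    FinOver (kur p) (kk φ K) := by
  classical
  let b := Module.finBasis ℚ K
  refine ⟨Finset.univ.image (fun i => φ (b i : Qb)), ?_⟩
  unfold kk
  congr 1
  apply le_antisymm
  · rw [adjoin_le_iff]
    rintro _ ⟨x, hx, rfl⟩
    have h1 : ((∑ i, b.repr ⟨x, hx⟩ i • b i : K) : Qb) = x := by
      rw [b.sum_repr]
    rw [← h1]
    have h2 : ((∑ i, b.repr ⟨x, hx⟩ i • b i : K) : Qb) =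
        ∑ i, ((b.repr ⟨x, hx⟩ i : ℚ) : Qb) * (b i : Qb) := by
      rw [IntermediateField.coe_sum]
      refine Finset.sum_congr rfl fun i _ => ?_
      rw [IntermediateField.coe_smul, Rat.smul_def]
    rw [h2, map_sum]
    refine sum_mem fun i _ => ?_
    rw [map_mul, map_ratCast]
    refine mul_mem (SubfieldClass.ratCast_mem _ _) (subset_adjoin _ _ ?_)
    simp
  · rw [adjoin_le_iff]
    intro y hy
    rw [Finset.coe_image, Finset.coe_univ, Set.image_univ] at hy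
    obtain ⟨i, rfl⟩ := hy
    exact subset_adjoin _ _ ⟨b i, (b i).2, rfl⟩

lemma kk_le_llev (k : LF p) (A : Finset (Om p)) (N R : ℕ) : k ≤ llev k A N R := le_sup_left

lemma root_mem_llev (k : LF p) (A : Finset (Om p)) {N R : ℕ} {x : Om p} (h : x ^ N = 1) :
    x ∈ llev k A N R :=
  (le_sup_right : _ ≤ llev k A N R) (subset_adjoin _ _ (Or.inl h))

lemma rad_mem_llev (k : LF p) (A : Finset (Om p)) {N R : ℕ} {y : Om p}
    (h : ∃ a ∈ A, y ^ R = a) : y ∈ llev k A N R :=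
  (le_sup_right : _ ≤ llev k A N R) (subset_adjoin _ _ (Or.inr h))

lemma tors_mem {k : LF p} (hk : kur p ≤ k) (A : Finset (Om p)) {i R M : ℕ} (hM : ¬ p ∣ M)
    {x : Om p} (h : x ^ (p ^ i * M) = 1) : x ∈ llev k A (p ^ i) R := by
  have hp : p.Prime := Fact.out
  have hx0 : x ≠ 0 := by
    rintro rfl
    have hM0 : M ≠ 0 := by rintro rfl; exact hM (dvd_zero p)
    rw [zero_pow (mul_ne_zero (pow_ne_zero _ hp.ne_zero) hM0)] at h
    exact zero_ne_one h
  have hc : Nat.Coprime (p ^ i) M := Nat.Coprime.pow_left _ ((hp.coprime_iff_not_dvd).mpr hM)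
  have hb := Nat.gcd_eq_gcd_ab (p ^ i) M
  rw [hc.gcd_eq_one] at hb
  have e : x = x ^ (((p ^ i : ℕ) : ℤ) * (p ^ i).gcdA M) * x ^ ((M : ℤ) * (p ^ i).gcdB M) := by
    rw [← zpow_add₀ hx0, ← hb]; simp
  rw [e]
  refine mul_mem ?_ ?_
  · apply kk_le_llev
    apply hk
    apply root_mem_kur hM
    rw [← zpow_natCast, ← zpow_mul,
      show ((p ^ i : ℕ) : ℤ) * (p ^ i).gcdA M * (M : ℤ) = ((p ^ i * M : ℕ) : ℤ) * (p ^ i).gcdA M by
        push_cast; ring, zpow_mul, zpow_natCast, h, one_zpow]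
  · apply root_mem_llev
    rw [← zpow_natCast, ← zpow_mul,
      show (M : ℤ) * (p ^ i).gcdB M * ((p ^ i : ℕ) : ℤ) = ((p ^ i * M : ℕ) : ℤ) * (p ^ i).gcdB M by
        push_cast; ring, zpow_mul, zpow_natCast, h, one_zpow]

/-- inclusion of the global levels in the local levels -/
lemma incl {φ : Qb →+* Om p} {K : GF} {Γ : Subgroup Qbˣ} {k : LF p} (hk : kur p ≤ k)
    (hKk : ∀ x ∈ K, φ x ∈ k) {s : ℕ} {g : Fin s → Qbˣ}
    (hg : ∀ x ∈ Γ, ∃ e : Fin s → ℤ, x = ∏ j, g j ^ e j) {A : Finset (Om p)}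
    (hA : ∀ j, φ (g j : Qb) ∈ A ∨ (φ (g j : Qb))⁻¹ ∈ A)
    {i n M M' : ℕ} (hn : n ≤ i) (hM : ¬ p ∣ M) (hM' : ¬ p ∣ M') {x : Qb}
    (hx : x ∈ lev K Γ (p ^ i * M') (p ^ n * M)) : φ x ∈ llev k A (p ^ i) (p ^ n * M) := by
  have hp : p.Prime := Fact.out
  have hM0 : 0 < M := Nat.pos_of_ne_zero (by rintro rfl; exact hM (dvd_zero p))
  have hR : 0 < p ^ n * M := Nat.mul_pos (pow_pos hp.pos _) hM0
  have h1 : lev K Γ (p ^ i * M') (p ^ n * M) ≤ pull φ (llev k A (p ^ i) (p ^ n * M)) := by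
    apply lev_le
    · intro x hx
      exact kk_le_llev k A _ _ (hKk x hx)
    · intro x hx
      rw [mem_pull]
      apply tors_mem hk A hM'
      rw [← map_pow, hx, map_one]
    · intro y hy
      obtain ⟨z, hz, hz2⟩ := exists_roots Γ s g hg (p ^ n * M) hR
      obtain ⟨e, ζ, hζ, rfl⟩ := hz2 y hy
      rw [mem_pull, map_mul]
      refine mul_mem ?_ ?_
      · apply tors_mem hk A hM
        have h2 : ζ ^ (p ^ i * M) = 1 := by
          have h3 : p ^ n * M ∣ p ^ i * M := Nat.mul_dvd_mul_right (pow_dvd_pow p hn) M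
          obtain ⟨c, hc⟩ := h3
          rw [hc, pow_mul, hζ, one_pow]
        rw [← map_pow, h2, map_one]
      · rw [Units.coe_prod, map_prod]
        refine prod_mem fun j _ => ?_
        rw [Units.val_zpow_eq_zpow_val, map_zpow₀]
        refine zpow_mem ?_ _
        have h4 : φ (z j : Qb) ^ (p ^ n * M) = φ (g j : Qb) := by
          rw [← map_pow, ← Units.val_pow_eq_pow_val, hz j]
        rcases hA j with h5 | h5
        · exact rad_mem_llev k A ⟨_, h5, h4⟩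
        · have h6 : (φ (z j : Qb))⁻¹ ∈ llev k A (p ^ i) (p ^ n * M) :=
            rad_mem_llev k A ⟨_, h5, by rw [inv_pow, h4]⟩
          have := inv_mem h6
          rwa [inv_inv] at this
  exact h1 hx

/-- the norm of `1 - ζ` -/
lemma norm_one_sub {m : ℕ} {ζ : Om p} (h : IsPrimitiveRoot ζ (p ^ (m + 1))) :
    ‖1 - ζ‖ ^ (p ^ m * (p - 1)) = (p : ℝ)⁻¹ := by
  have hp : p.Prime := Fact.out
  have hev : (cyclotomic (p ^ (m + 1)) (Om p)).eval 1 = (p : Om p) := by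
    exact eval_one_cyclotomic_prime_pow m
  have hζ1 : ‖ζ‖ = 1 := by
    have h1 : ‖ζ‖ ^ (p ^ (m + 1)) = 1 := by rw [← norm_pow, h.pow_eq_one, norm_one]
    exact (pow_eq_one_iff_of_nonneg (norm_nonneg _) (pow_ne_zero _ hp.ne_zero)).mp h1
  -- `‖1 - ω^j‖ ≤ ‖1 - ω‖`
  have hle : ∀ ω : Om p, ‖ω‖ = 1 → ∀ j : ℕ, ‖1 - ω ^ j‖ ≤ ‖1 - ω‖ := by
    intro ω hω j
    induction j with
    | zero => simp
    | succ j ih =>
      have e : 1 - ω ^ (j + 1) = (1 - ω ^ j) + ω ^ j * (1 - ω) := by ring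
      rw [e]
      refine (IsUltrametricDist.norm_add_le_max _ _).trans (max_le ih ?_)
      rw [norm_mul, norm_pow, hω, one_pow, one_mul]
  have heq : ∀ ω ∈ primitiveRoots (p ^ (m + 1)) (Om p), ‖1 - ω‖ = ‖1 - ζ‖ := by
    intro ω hω
    have hω' := isPrimitiveRoot_of_mem_primitiveRoots hω
    have hω1 : ‖ω‖ = 1 := by
      have h1 : ‖ω‖ ^ (p ^ (m + 1)) = 1 := by rw [← norm_pow, hω'.pow_eq_one, norm_one]
      exact (pow_eq_one_iff_of_nonneg (norm_nonneg _) (pow_ne_zero _ hp.ne_zero)).mp h1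
    have : NeZero (p ^ (m + 1)) := ⟨pow_ne_zero _ hp.ne_zero⟩
    obtain ⟨a, -, ha⟩ := h.eq_pow_of_pow_eq_one hω'.pow_eq_one
    obtain ⟨b, -, hb⟩ := hω'.eq_pow_of_pow_eq_one h.pow_eq_one
    apply le_antisymm
    · rw [← ha]; exact hle ζ hζ1 a
    · rw [← hb]; exact hle ω hω1 b
  have hprod : (cyclotomic (p ^ (m + 1)) (Om p)) =
      ∏ ω ∈ primitiveRoots (p ^ (m + 1)) (Om p), (X - C ω) :=
    cyclotomic_eq_prod_X_sub_primitiveRoots h
  rw [hprod, eval_prod] at hev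
  have h2 := congrArg norm hev
  rw [norm_prod, norm_p] at h2
  have h3 : ∀ ω ∈ primitiveRoots (p ^ (m + 1)) (Om p), ‖eval 1 (X - C ω)‖ = ‖1 - ζ‖ := by
    intro ω hω
    rw [eval_sub, eval_X, eval_C]
    exact heq ω hω
  rw [Finset.prod_congr rfl h3, Finset.prod_const, h.card_primitiveRoots,
    Nat.totient_prime_pow_succ hp] at h2
  exact h2

theorem lt : S_REST → S_LLT → S_LT := by
  classical
  intro hrest hllt p _ φ K Γ hK hΓ hΓK J
  have hp : p.Prime := Fact.out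
  have hinj : Function.Injective φ := φ.injective
  obtain ⟨s, g, hgΓ, hg⟩ := exists_gens Γ hΓ
  let a : Fin s → Om p := fun j => if ‖φ (g j : Qb)‖ ≤ 1 then φ (g j : Qb) else (φ (g j : Qb))⁻¹
  let A : Finset (Om p) := Finset.univ.image a
  have hA : ∀ j, φ (g j : Qb) ∈ A ∨ (φ (g j : Qb))⁻¹ ∈ A := by
    intro j
    have h1 : a j ∈ A := Finset.mem_image_of_mem _ (Finset.mem_univ _)
    by_cases h : ‖φ (g j : Qb)‖ ≤ 1
    · left
      have : a j = φ (g j : Qb) := if_pos h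
      rw [← this]; exact h1
    · right
      have : a j = (φ (g j : Qb))⁻¹ := if_neg h
      rw [← this]; exact h1
  have hA2 : ∀ x ∈ A, x ∈ kk φ K ∧ x ≠ 0 ∧ ‖x‖ ≤ 1 := by
    intro x hx
    obtain ⟨j, -, rfl⟩ := Finset.mem_image.mp hx
    have h0 : φ (g j : Qb) ≠ 0 := (map_ne_zero φ).mpr (Units.ne_zero _)
    have h1 : φ (g j : Qb) ∈ kk φ K := mem_kk φ K (hΓK _ (hgΓ j))
    by_cases h : ‖φ (g j : Qb)‖ ≤ 1
    · have : a j = φ (g j : Qb) := if_pos h
      rw [this]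
      exact ⟨h1, h0, h⟩
    · have : a j = (φ (g j : Qb))⁻¹ := if_neg h
      rw [this]
      refine ⟨inv_mem h1, inv_ne_zero h0, ?_⟩
      rw [_root_.norm_inv, inv_le_one₀ (norm_pos_iff.mpr h0)]
      exact (not_le.mp h).le
  obtain ⟨B₁, hB₁, hmain⟩ := hllt p (kk φ K) (kur_le_kk φ K) (finOver_kk φ K hK) A hA2 J
  refine ⟨2 * B₁ + 4, by omega, ?_⟩
  intro m i n M M' hBm hni hmi him hM hM'
  obtain ⟨s', hs1, hs2, hs3⟩ := hmain m i n M (by omega) hni hmi him hM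
  obtain ⟨σ, hσ⟩ := hrest p φ s'
  have hM0 : 0 < M := Nat.pos_of_ne_zero (by rintro rfl; exact hM (dvd_zero p))
  have hfix : ∀ x ∈ lev K Γ (p ^ (m - 1) * M') (p ^ (min n (m - B₁)) * M), σ x = x := by
    intro x hx
    apply hinj
    rw [hσ]
    apply hs1
    exact incl (kur_le_kk φ K) (fun x hx => mem_kk φ K hx) hg hA
      (by have := min_le_right n (m - B₁); omega) hM hM' hx
  refine ⟨σ, ?_, ?_, ?_⟩
  · intro x hx
    apply hfix
    refine lev_mono K Γ dvd_rfl (Nat.mul_pos (pow_pos hp.pos _) hM0) ?_ hx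
    refine Nat.mul_dvd_mul_right (pow_dvd_pow p ?_) M
    exact min_le_min le_rfl (by omega)
  · intro ζ hζ h
    have h1 : IsPrimitiveRoot (φ ζ) (p ^ m) := hζ.map_of_injective hinj
    apply hs2 _ h1
    rw [← hσ, h]
  · intro x hx hx0
    obtain ⟨m', rfl⟩ : ∃ m', m = m' + 2 := ⟨m - 2, by omega⟩
    have : NeZero ((p ^ (m' + 1) : ℕ) : Qb) := ⟨by exact_mod_cast pow_ne_zero _ hp.ne_zero⟩
    obtain ⟨ζ, hζ⟩ := (IsSepClosed.hasEnoughRootsOfUnity Qb (p ^ (m' + 1))).exists_primitiveRoot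
    have hζφ : IsPrimitiveRoot (φ ζ) (p ^ (m' + 1)) := hζ.map_of_injective hinj
    have hnorm := norm_one_sub hζφ
    set t : Qb := 1 - ζ with ht
    have hφt : φ t = 1 - φ ζ := by rw [ht, map_sub, map_one]
    rw [← hφt] at hnorm
    have hp1 : (1 : ℝ) < p := by exact_mod_cast hp.one_lt
    have hexp : p ^ m' * (p - 1) ≠ 0 := mul_ne_zero (pow_ne_zero _ hp.ne_zero) (by
      have := hp.two_le; omega)
    have ht0 : 0 < ‖φ t‖ := by
      rcases (norm_nonneg (φ t)).lt_or_eq with h | h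
      · exact h
      · rw [← h, zero_pow hexp] at hnorm
        have : (0 : ℝ) < (p : ℝ)⁻¹ := inv_pos.mpr (by linarith)
        linarith
    have hinv1 : (p : ℝ)⁻¹ < 1 := inv_lt_one_of_one_lt₀ hp1
    have ht1 : ‖φ t‖ < 1 := by
      by_contra h
      push Not at h
      have := one_le_pow₀ h (n := p ^ m' * (p - 1))
      linarith
    have ht0' : t ≠ 0 := by
      intro h
      rw [h, map_zero, norm_zero] at ht0
      exact lt_irrefl _ ht0
    have hζi : ζ ^ (p ^ i * M') = 1 := by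
      have h3 : p ^ (m' + 1) ∣ p ^ i * M' := (pow_dvd_pow p (by omega)).mul_right M'
      obtain ⟨c, hc⟩ := h3
      rw [hc, pow_mul, hζ.pow_eq_one, one_pow]
    have htE : t ∈ lev K Γ (p ^ i * M') (p ^ n * M) :=
      sub_mem (one_mem _) (root_mem_lev K Γ hζi)
    have hσt : σ t = t := by
      apply hfix
      refine sub_mem (one_mem _) (root_mem_lev K Γ ?_)
      rw [show m' + 2 - 1 = m' + 1 by omega, pow_mul, hζ.pow_eq_one, one_pow]
    -- the lower bound for `‖t‖`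
    have hlow : (p : ℝ)⁻¹ ≤ ‖φ t‖ ^ (2 * B₁) := by
      rw [← hnorm]
      apply pow_le_pow_of_le_one ht0.le ht1.le
      have h1 : B₁ < 2 ^ B₁ := Nat.lt_two_pow_self
      have h2 : 2 ^ (B₁ + 1) ≤ 2 ^ m' := Nat.pow_le_pow_right (by norm_num) (by omega)
      have h3 : 2 ^ m' ≤ p ^ m' := Nat.pow_le_pow_left hp.two_le m'
      have h4 : p ^ m' * 1 ≤ p ^ m' * (p - 1) := Nat.mul_le_mul_left _ (by
        have := hp.two_le; omega)
      rw [pow_succ] at h2
      omega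
    -- scaling
    have hφx0 : 0 < ‖φ x‖ := norm_pos_iff.mpr ((map_ne_zero φ).mpr hx0)
    obtain ⟨j, hj1, hj2⟩ := exists_mem_Ioc_zpow hφx0 ((one_lt_inv₀ ht0).mpr ht1)
    set y : Qb := x * t ^ (j + 1) with hy
    have hyE : y ∈ lev K Γ (p ^ i * M') (p ^ n * M) := mul_mem hx (zpow_mem htE _)
    have hty : ‖φ y‖ = ‖φ x‖ * ‖φ t‖ ^ (j + 1) := by
      rw [hy, map_mul, map_zpow₀, norm_mul, norm_zpow]
    have hy1 : ‖φ y‖ ≤ 1 := by
      rw [hty]
      calc ‖φ x‖ * ‖φ t‖ ^ (j + 1) ≤ ‖φ t‖⁻¹ ^ (j + 1) * ‖φ t‖ ^ (j + 1) :=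
            mul_le_mul_of_nonneg_right hj2 (zpow_nonneg ht0.le _)
        _ = 1 := by rw [inv_zpow, inv_mul_cancel₀ (zpow_pos ht0 _).ne']
    have hy2 : ‖φ t‖ < ‖φ y‖ := by
      rw [hty]
      calc ‖φ t‖ = ‖φ t‖⁻¹ ^ j * ‖φ t‖ ^ (j + 1) := by
            rw [inv_zpow, zpow_add_one₀ ht0.ne', ← mul_assoc,
              inv_mul_cancel₀ (zpow_pos ht0 _).ne', one_mul]
        _ < ‖φ x‖ * ‖φ t‖ ^ (j + 1) := mul_lt_mul_of_pos_right hj1 (zpow_pos ht0 _)
    have hu : ‖φ (σ y) - φ y‖ ^ B₁ ≤ (p : ℝ)⁻¹ := by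
      rw [hσ]
      refine hs3 _ ?_ hy1
      exact incl (kur_le_kk φ K) (fun x hx => mem_kk φ K hx) hg hA hni hM hM' hyE
    have hy0 : φ y ≠ 0 := by
      intro h
      rw [h, norm_zero] at hy2
      linarith
    have heq : φ (σ x / x - 1) = (φ (σ y) - φ y) / φ y := by
      have h1 : σ x / x = σ y / y := by
        rw [hy, map_mul, map_zpow₀, hσt]
        have h2 : t ^ (j + 1) ≠ 0 := zpow_ne_zero _ ht0'
        field_simp
      rw [h1, map_sub, map_div₀, map_one]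
      field_simp
    rw [heq, norm_div]
    set u : ℝ := ‖φ (σ y) - φ y‖ with hudef
    set w : ℝ := u / ‖φ y‖ with hw
    have hu0 : 0 ≤ u := norm_nonneg _
    have hw0 : 0 ≤ w := div_nonneg hu0 (norm_nonneg _)
    have hw1 : w ≤ u / ‖φ t‖ := div_le_div_of_nonneg_left hu0 ht0 hy2.le
    have hpinv : (0 : ℝ) < (p : ℝ)⁻¹ := inv_pos.mpr (by linarith)
    have hw2 : w ^ (2 * B₁) ≤ (p : ℝ)⁻¹ := by
      calc w ^ (2 * B₁) ≤ (u / ‖φ t‖) ^ (2 * B₁) := pow_le_pow_left₀ hw0 hw1 _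
        _ = (u ^ B₁) ^ 2 / ‖φ t‖ ^ (2 * B₁) := by
            rw [div_pow, ← pow_mul, mul_comm B₁ 2]
        _ ≤ ((p : ℝ)⁻¹) ^ 2 / (p : ℝ)⁻¹ := by
            apply div_le_div₀ (by positivity) (pow_le_pow_left₀ (pow_nonneg hu0 _) hu 2) hpinv hlow
        _ = (p : ℝ)⁻¹ := by field_simp
    have hw3 : w ≤ 1 := by
      by_contra h
      push Not at h
      have := one_lt_pow₀ h (n := 2 * B₁) (by omega)
      linarith
    calc w ^ (2 * B₁ + 4) = w ^ (2 * B₁) * w ^ 4 := by rw [pow_add]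
      _ ≤ w ^ (2 * B₁) * 1 := mul_le_mul_of_nonneg_left (pow_le_one₀ hw0 hw3) (by positivity)
      _ ≤ (p : ℝ)⁻¹ := by rw [mul_one]; exact hw2

end Pool.Agent.W340.RK
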